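import Mathlib

/-!
# MP_4caafd_al, Q1: ideally C-closed semigroups that are not projectively C-closed

The semigroup is the Rees matrix semigroup `ℕ × G × {0,1}` over an infinite group `G` of exponent
two, `(i, g, λ)(j, h, μ) = (i, g + p λ j + h, μ)`, with `p 0 j = 0` and `j ↦ p 1 j` injective. It is
simple, so its only ideals are `∅` and the whole semigroup. If `y` is a limit of it in a `T₁`
topological semigroup, then `x ↦ a x b` is constant near `y` (its values lie in a group of exponent
two, which is closed), and comparing two choices of `a` shows that only finitely many elements are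
near `y`. The quotient by the first coordinate is the infinite left-zero band, which is not closed
in the Cantor space with the left-zero multiplication.

For groups: if a quotient `Q` of `G` is dense, discrete and not closed in `Y`, then the remainder
`Y \ Q` is an ideal, and `G ⊔ (Y \ Q)` is a topological semigroup in which `G` is not closed.
-/

namespace Pool.Agent.Results.MP_4caafd_al.IdealNotProjective

open Topology Filter

universe u

/-- A class of topological semigroups, as a predicate on spaces with a multiplication. -/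
abbrev TopClass := (Y : Type u) → [TopologicalSpace Y] → [Semigroup Y] → Prop

/-- `T₁` topological semigroups -/
def T1S : TopClass.{u} := fun Y _ _ => ContinuousMul Y ∧ T1Space Y

/-- Hausdorff topological semigroups -/
def T2S : TopClass.{u} := fun Y _ _ => ContinuousMul Y ∧ T2Space Y

/-- Hausdorff zero-dimensional topological semigroups: the clopen sets form a base. -/
def TzS : TopClass.{u} := fun Y _ _ => ContinuousMul Y ∧ T2Space Y ∧
  TopologicalSpace.IsTopologicalBasis {s : Set Y | IsClopen s}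

/-- `X` is `C`-closed: for each injective homomorphism `h` to a member `Y` of `C` that is a
topological embedding of `X` with the discrete topology `⊥`, the image is closed. -/
def CClosed (C : TopClass.{u}) (X : Type u) [Semigroup X] : Prop :=
  ∀ (Y : Type u) [TopologicalSpace Y] [Semigroup Y], C Y → ∀ h : X →ₙ* Y,
    @IsEmbedding X Y ⊥ _ h → IsClosed (Set.range h)

/-- two-sided ideals; the empty set is one -/
def IsIdeal {X : Type u} [Semigroup X] (I : Set X) : Prop :=
  ∀ a ∈ I, ∀ x, a * x ∈ I ∧ x * a ∈ I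

/-- the congruence `(I × I) ∪ {(x, x)}` -/
def reesCon {X : Type u} [Semigroup X] (I : Set X) (hI : IsIdeal I) : Con X where
  r a b := a = b ∨ (a ∈ I ∧ b ∈ I)
  iseqv := ⟨fun _ => Or.inl rfl, by
    rintro a b (h | h)
    · exact Or.inl h.symm
    · exact Or.inr ⟨h.2, h.1⟩, by
    rintro a b c (h | h) (h' | h')
    · exact Or.inl (h.trans h')
    · exact Or.inr ⟨h ▸ h'.1, h'.2⟩
    · exact Or.inr ⟨h.1, h' ▸ h.2⟩
    · exact Or.inr ⟨h.1, h'.2⟩⟩
  mul' := by
    rintro a b c d (h | h) (h' | h')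
    · exact Or.inl (by rw [h, h'])
    · exact Or.inr ⟨(hI _ h'.1 _).2, (hI _ h'.2 _).2⟩
    · exact Or.inr ⟨(hI _ h.1 _).1, (hI _ h.2 _).1⟩
    · exact Or.inr ⟨(hI _ h.1 _).1, (hI _ h.2 _).1⟩

/-- `X / I` is `C`-closed for each ideal `I` -/
def IdeallyClosed (C : TopClass.{u}) (X : Type u) [Semigroup X] : Prop :=
  ∀ (I : Set X) (hI : IsIdeal I), CClosed C (reesCon I hI).Quotient

/-- `X / ≈` is `C`-closed for each congruence `≈` -/
def ProjectivelyClosed (C : TopClass.{u}) (X : Type u) [Semigroup X] : Prop :=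
  ∀ c : Con X, CClosed C c.Quotient

theorem isEmbedding_bot {X Y : Type u} [TopologicalSpace Y] {h : X → Y}
    (hinj : Function.Injective h) (H : ∀ x, ∃ U : Set Y, IsOpen U ∧ h ⁻¹' U = {x}) :
    @IsEmbedding X Y ⊥ _ h := by
  let _ : TopologicalSpace X := ⊥
  refine ⟨⟨?_⟩, hinj⟩
  symm
  apply eq_bot_of_singletons_open
  intro x
  obtain ⟨U, hU, hx⟩ := H x
  exact ⟨U, hU, hx⟩

theorem exists_isolating {X Y : Type u} [TopologicalSpace Y] {h : X → Y}
    (he : @IsEmbedding X Y ⊥ _ h) (x : X) : ∃ U : Set Y, IsOpen U ∧ h ⁻¹' U = {x} := by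
  let _ : TopologicalSpace X := ⊥
  have : DiscreteTopology X := ⟨rfl⟩
  exact he.isInducing.isOpen_iff.mp (isOpen_discrete {x})

theorem inj_of {X Y : Type u} [TopologicalSpace Y] {h : X → Y}
    (he : @IsEmbedding X Y ⊥ _ h) : Function.Injective h := by
  let _ : TopologicalSpace X := ⊥
  exact he.injective

theorem CClosed.of_equiv {C : TopClass.{u}} {X X' : Type u} [Semigroup X] [Semigroup X']
    (h : CClosed C X) (e : X ≃* X') : CClosed C X' := by
  intro Y _ _ hY f hf
  have h1 : @IsEmbedding X Y ⊥ _ (f.comp e.toMulHom) := by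
    apply isEmbedding_bot
    · exact (inj_of hf).comp e.injective
    · intro x
      obtain ⟨U, hU, hx⟩ := exists_isolating hf (e x)
      refine ⟨U, hU, ?_⟩
      ext z
      constructor
      · intro hz
        have : e z ∈ f ⁻¹' U := hz
        rw [hx] at this
        exact e.injective this
      · rintro rfl
        have : e z ∈ f ⁻¹' U := by rw [hx]; rfl
        exact this
  have h2 := h Y hY (f.comp e.toMulHom) h1
  have h3 : Set.range (f.comp e.toMulHom) = Set.range f := by
    ext y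
    constructor
    · rintro ⟨x, rfl⟩
      exact ⟨e x, rfl⟩
    · rintro ⟨x, rfl⟩
      exact ⟨e.symm x, by simp⟩
  rwa [h3] at h2

/-! ### The example -/

/-- the coordinate group, of exponent two -/
abbrev Gp := ℕ →₀ ZMod 2

/-- the sandwich matrix -/
noncomputable def p (l : Bool) (i : ℕ) : Gp := if l then Finsupp.single i 1 else 0

/-- The completely simple semigroup `ℕ × G × {0,1}` with
`(i, g, λ) (j, h, μ) = (i, g + p λ j + h, μ)`. -/
structure RS : Type u where
  i : ULift.{u} ℕ
  g : Gp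
  l : Bool

noncomputable instance : Semigroup RS.{u} where
  mul x y := ⟨x.i, x.g + p x.l y.i.down + y.g, y.l⟩
  mul_assoc x y z := by
    change RS.mk _ _ _ = RS.mk _ _ _
    congr 1
    change x.g + p x.l y.i.down + y.g + p y.l z.i.down + z.g
      = x.g + p x.l y.i.down + (y.g + p y.l z.i.down + z.g)
    abel

theorem mul_i (x y : RS.{u}) : (x * y).i = x.i := rfl
theorem mul_g (x y : RS.{u}) : (x * y).g = x.g + p x.l y.i.down + y.g := rfl
theorem mul_l (x y : RS.{u}) : (x * y).l = y.l := rfl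

theorem RS.ext' {x y : RS.{u}} (h1 : x.i = y.i) (h2 : x.g = y.g) (h3 : x.l = y.l) : x = y := by
  cases x; cases y; simp_all

theorem gadd (g : Gp) : g + g = 0 := by
  ext i
  exact CharTwo.add_self_eq_zero _

theorem p_inj {i j : ℕ} (h : p true i = p true j) : i = j := by
  simp only [p, if_true] at h
  exact Finsupp.single_left_injective (one_ne_zero) h

/-- The semigroup is closed in each `T₁` topological semigroup that contains it discretely. -/
theorem RS_closed : CClosed T1S.{u} RS.{u} := by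
  intro Y _ _ hY h he
  obtain ⟨_, _⟩ := hY
  rw [← closure_subset_iff_isClosed]
  intro y hy
  -- near `y`, the map `x ↦ a x b` is constant
  have key : ∀ a b : RS.{u}, ∃ V : Set Y, IsOpen V ∧ y ∈ V ∧
      ∀ x x' : RS.{u}, h x ∈ V → h x' ∈ V → a * x * b = a * x' * b := by
    intro a b
    let e : RS.{u} := ⟨a.i, p b.l a.i.down, b.l⟩
    have hsq : ∀ x : RS.{u}, (a * x * b) * (a * x * b) = e := by
      intro x
      apply RS.ext'
      · rfl
      · change (a * x * b).g + p b.l a.i.down + (a * x * b).g = p b.l a.i.down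
        rw [add_right_comm, gadd, zero_add]
      · rfl
    obtain ⟨W, hW, hWe⟩ := exists_isolating he e
    let F : Y × Y → Y := fun t => (h a * t.1 * h b) * (h a * t.2 * h b)
    have hF : Continuous F := by fun_prop
    have h1 : F (y, y) = h e := by
      have hc : IsClosed ((fun t : Y => F (t, t)) ⁻¹' {h e}) :=
        IsClosed.preimage (hF.comp (continuous_id.prodMk continuous_id)) isClosed_singleton
      have hsub : Set.range h ⊆ (fun t : Y => F (t, t)) ⁻¹' {h e} := by
        rintro _ ⟨x, rfl⟩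
        change (h a * h x * h b) * (h a * h x * h b) = h e
        rw [← map_mul, ← map_mul, ← map_mul, hsq]
      exact closure_minimal hsub hc hy
    have h2 : F (y, y) ∈ W := by
      rw [h1]
      have : e ∈ h ⁻¹' W := by rw [hWe]; rfl
      exact this
    have h3 := hF.continuousAt.preimage_mem_nhds (hW.mem_nhds h2)
    rw [nhds_prod_eq, Filter.mem_prod_iff] at h3
    obtain ⟨V1, hV1, V2, hV2, hsub⟩ := h3
    obtain ⟨V, hV, hVo, hyV⟩ := mem_nhds_iff.mp (Filter.inter_mem hV1 hV2)
    refine ⟨V, hVo, hyV, ?_⟩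
    intro x x' hx hx'
    have h4 : F (h x, h x') ∈ W := hsub ⟨(hV hx).1, (hV hx').2⟩
    have h5 : (a * x * b) * (a * x' * b) ∈ h ⁻¹' W := by
      change h _ ∈ W
      rw [map_mul, map_mul, map_mul, map_mul, map_mul]
      exact h4
    rw [hWe] at h5
    have h6 : (a * x * b) * (a * x' * b) = e := h5
    apply RS.ext'
    · rfl
    · have h7 : (a * x * b).g + p b.l a.i.down + (a * x' * b).g = p b.l a.i.down :=
        congrArg RS.g h6
      have h8 : (a * x * b).g + (a * x' * b).g = 0 := by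
        rw [add_right_comm] at h7
        exact add_eq_right.mp h7
      calc (a * x * b).g = (a * x * b).g + (a * x' * b).g + (a * x' * b).g := by
            rw [add_assoc, gadd, add_zero]
        _ = (a * x' * b).g := by rw [h8, zero_add]
    · rfl
  obtain ⟨V1, hV1, hy1, H1⟩ := key ⟨⟨0⟩, 0, false⟩ ⟨⟨0⟩, 0, false⟩
  obtain ⟨V2, hV2, hy2, H2⟩ := key ⟨⟨0⟩, 0, true⟩ ⟨⟨0⟩, 0, false⟩
  have hfin : (h ⁻¹' (V1 ∩ V2)).Finite := by
    apply Set.Finite.of_injOn (f := RS.l) (t := Set.univ) (fun _ _ => trivial) _ Set.finite_univ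
    intro x hx x' hx' hl
    have e1 := congrArg RS.g (H1 x x' hx.1 hx'.1)
    have e2 := congrArg RS.g (H2 x x' hx.2 hx'.2)
    simp only [mul_g, mul_l, p, if_true, zero_add, add_zero] at e1 e2
    have hl' : x.l = x'.l := hl
    rw [hl'] at e1 e2
    simp only [Bool.false_eq_true, if_false, zero_add] at e1
    have e3 : x.g = x'.g := by
      exact add_right_cancel e1
    rw [e3] at e2
    have e4 : (Finsupp.single x.i.down 1 : Gp) = Finsupp.single x'.i.down 1 :=
      add_right_cancel (add_right_cancel e2)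
    have e5 : x.i.down = x'.i.down := Finsupp.single_left_injective one_ne_zero e4
    exact RS.ext' (ULift.ext _ _ e5) e3 hl'
  have h7 : y ∈ closure ((V1 ∩ V2) ∩ Set.range h) :=
    (hV1.inter hV2).inter_closure ⟨⟨hy1, hy2⟩, hy⟩
  have h8 : (V1 ∩ V2) ∩ Set.range h = h '' (h ⁻¹' (V1 ∩ V2)) := by
    rw [Set.image_preimage_eq_inter_range]
  rw [h8, (hfin.image h).isClosed.closure_eq] at h7
  obtain ⟨x, _, rfl⟩ := h7
  exact ⟨x, rfl⟩

theorem ideal_eq_univ {I : Set RS.{u}} (hI : IsIdeal I) {a : RS.{u}} (ha : a ∈ I) :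
    I = Set.univ := by
  apply Set.eq_univ_of_forall
  intro x
  have h1 : (⟨x.i, 0, false⟩ : RS.{u}) * a ∈ I := (hI a ha _).2
  have h2 := (hI _ h1 ⟨⟨0⟩, x.g - (a.g + p a.l 0), x.l⟩).1
  convert h2 using 1
  apply RS.ext'
  · rfl
  · simp only [mul_g, mul_l, p, Bool.false_eq_true, if_false]
    abel
  · rfl

theorem RS_ideally {C : TopClass.{u}}
    (hC : ∀ (Y : Type u) [TopologicalSpace Y] [Semigroup Y], C Y → T1S Y) :
    IdeallyClosed C RS.{u} := by
  intro I hI
  rcases I.eq_empty_or_nonempty with h0 | ⟨a, ha⟩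
  · -- the quotient is `RS`
    have hinj : Function.Injective (fun x : RS.{u} => (x : (reesCon I hI).Quotient)) := by
      intro x y hxy
      rcases (Con.eq _).mp hxy with h | h
      · exact h
      · rw [h0] at h
        exact absurd h.1 (Set.notMem_empty _)
    let e : RS.{u} ≃* (reesCon I hI).Quotient :=
      MulEquiv.ofBijective (M := RS.{u}) (N := (reesCon I hI).Quotient)
        (⟨fun x => (x : (reesCon I hI).Quotient), fun _ _ => rfl⟩ : RS.{u} →ₙ* _)
        ⟨hinj, Quotient.mk_surjective⟩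
    refine CClosed.of_equiv ?_ e
    intro Y _ _ hY
    exact RS_closed Y (hC Y hY)
  · have huniv := ideal_eq_univ hI ha
    intro Y _ _ hY h _
    obtain ⟨_, _⟩ := hC Y hY
    have hsub : Subsingleton (reesCon I hI).Quotient := by
      constructor
      intro x y
      induction x using Quotient.inductionOn with | _ x => ?_
      induction y using Quotient.inductionOn with | _ y => ?_
      apply Quotient.sound
      exact Or.inr ⟨huniv ▸ trivial, huniv ▸ trivial⟩
    exact (Set.finite_range h).isClosed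

/-- The Cantor space with the left-zero multiplication. -/
def LZ : Type u := ULift.{u} ℕ → Bool

instance : TopologicalSpace LZ.{u} := inferInstanceAs (TopologicalSpace (ULift.{u} ℕ → Bool))
instance : T2Space LZ.{u} := inferInstanceAs (T2Space (ULift.{u} ℕ → Bool))
instance : CompactSpace LZ.{u} := inferInstanceAs (CompactSpace (ULift.{u} ℕ → Bool))
instance : TotallyDisconnectedSpace LZ.{u} :=
  inferInstanceAs (TotallyDisconnectedSpace (ULift.{u} ℕ → Bool))

instance : Semigroup LZ.{u} where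
  mul a _ := a
  mul_assoc _ _ _ := rfl

theorem LZ_cont (j : ULift.{u} ℕ) : Continuous (fun f : LZ.{u} => f j) :=
  continuous_apply (A := fun _ : ULift.{u} ℕ => Bool) j

theorem LZ_TzS : TzS LZ.{u} :=
  ⟨⟨continuous_fst⟩, inferInstance, isTopologicalBasis_isClopen⟩

/-- the congruence with classes `{i} × G × {0,1}` -/
def cc : Con RS.{u} where
  r x y := x.i = y.i
  iseqv := ⟨fun _ => rfl, fun h => h.symm, fun h h' => h.trans h'⟩
  mul' := fun h _ => h

/-- the point masses -/
def δ (i : ULift.{u} ℕ) : LZ.{u} := fun j => decide (j = i)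

/-- the embedding of the quotient in the Cantor space -/
def emb : (cc.{u}).Quotient →ₙ* LZ.{u} where
  toFun q := Quotient.lift (fun x : RS.{u} => δ x.i) (fun x y h => by
    have : x.i = y.i := h
    rw [this]) q
  map_mul' := by
    intro x y
    induction x using Quotient.inductionOn with | _ x => ?_
    induction y using Quotient.inductionOn with | _ y => ?_
    rfl

theorem emb_mk (x : RS.{u}) : emb (x : (cc.{u}).Quotient) = δ x.i := rfl

theorem RS_not_projectively {C : TopClass.{u}}
    (hC : ∀ (Y : Type u) [TopologicalSpace Y] [Semigroup Y], TzS Y → C Y) :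
    ¬ ProjectivelyClosed C RS.{u} := by
  intro H
  have h1 : @IsEmbedding (cc.{u}).Quotient LZ.{u} ⊥ _ emb := by
    have hδ : ∀ i j : ULift.{u} ℕ, δ i j = true ↔ j = i := by
      intro i j
      simp [δ]
    apply isEmbedding_bot
    · intro x y
      induction x using Quotient.inductionOn with | _ x => ?_
      induction y using Quotient.inductionOn with | _ y => ?_
      intro hxy
      have h2 : δ x.i = δ y.i := hxy
      apply Quotient.sound
      have h3 := (hδ y.i x.i).mp (by rw [← h2]; exact (hδ _ _).mpr rfl)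
      exact h3
    · intro x
      induction x using Quotient.inductionOn with | _ x => ?_
      refine ⟨{f : LZ.{u} | f x.i = true}, ?_, ?_⟩
      · exact (isOpen_discrete ({true} : Set Bool)).preimage (LZ_cont x.i)
      · ext y
        induction y using Quotient.inductionOn with | _ y => ?_
        constructor
        · intro hy
          have h2 : δ y.i x.i = true := hy
          have h3 := (hδ _ _).mp h2
          exact Quotient.sound h3.symm
        · intro hy
          have h2 : y.i = x.i := Quotient.exact hy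
          change δ y.i x.i = true
          exact (hδ _ _).mpr h2.symm
  have h2 := H cc LZ.{u} (hC _ LZ_TzS) emb h1
  let f0 : LZ.{u} := fun _ => false
  have h3 : Tendsto (fun n : ℕ => (δ ⟨n⟩ : LZ.{u})) atTop (𝓝 f0) := by
    refine (tendsto_pi_nhds (A := fun _ : ULift.{u} ℕ => Bool)
      (f := fun n : ℕ => (δ ⟨n⟩ : ULift.{u} ℕ → Bool))
      (g := fun _ : ULift.{u} ℕ => false)).mpr ?_
    intro j
    apply tendsto_const_nhds.congr'
    filter_upwards [eventually_gt_atTop j.down] with n hn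
    have : j ≠ ⟨n⟩ := by
      intro h
      rw [h] at hn
      exact lt_irrefl _ hn
    simp [δ, this]
  have h4 : f0 ∈ Set.range emb := by
    apply h2.mem_of_tendsto h3
    filter_upwards with n
    exact ⟨((⟨⟨n⟩, 0, false⟩ : RS.{u}) : (cc.{u}).Quotient), rfl⟩
  obtain ⟨x, hx⟩ := h4
  induction x using Quotient.inductionOn with | _ x => ?_
  have h5 : δ x.i = f0 := hx
  have h6 := congrFun h5 x.i
  simp [δ, f0] at h6

/-! ### Groups -/

section group

theorem mem_range_of_finite {X Y : Type u} [TopologicalSpace Y] [T1Space Y] {h : X → Y} {y : Y}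
    (hy : y ∈ closure (Set.range h)) {V : Set Y} (hV : IsOpen V) (hyV : y ∈ V)
    (hfin : (h ⁻¹' V).Finite) : y ∈ Set.range h := by
  have h7 : y ∈ closure (V ∩ Set.range h) := hV.inter_closure ⟨hyV, hy⟩
  have h8 : V ∩ Set.range h = h '' (h ⁻¹' V) := by rw [Set.image_preimage_eq_inter_range]
  rw [h8, (hfin.image h).isClosed.closure_eq] at h7
  obtain ⟨x, _, rfl⟩ := h7
  exact ⟨x, rfl⟩

/-- a homomorphism together with an ideal-like remainder -/
structure Dat (X Y : Type u) [Semigroup X] [Semigroup Y] where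
  f : X →ₙ* Y
  E : Set Y
  left : ∀ x, ∀ y ∈ E, f x * y ∈ E
  right : ∀ x, ∀ y ∈ E, y * f x ∈ E
  mul : ∀ y ∈ E, ∀ y' ∈ E, y * y' ∈ E

/-- the semigroup `X ⊔ E` -/
inductive Dat.Ext {X Y : Type u} [Semigroup X] [Semigroup Y] (D : Dat X Y) : Type u
  | pt : X → Dat.Ext D
  | rm : D.E → Dat.Ext D

/-- the projection to `Y` -/
def Dat.pr {X Y : Type u} [Semigroup X] [Semigroup Y] (D : Dat X Y) : D.Ext → Y
  | Dat.Ext.pt x => D.f x
  | Dat.Ext.rm e => e.1

instance {X Y : Type u} [Semigroup X] [Semigroup Y] (D : Dat X Y) : Semigroup D.Ext where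
  mul a b := match a, b with
    | Dat.Ext.pt x, Dat.Ext.pt y => Dat.Ext.pt (x * y)
    | Dat.Ext.pt x, Dat.Ext.rm y => Dat.Ext.rm ⟨D.f x * y.1, D.left x y.1 y.2⟩
    | Dat.Ext.rm x, Dat.Ext.pt y => Dat.Ext.rm ⟨x.1 * D.f y, D.right y x.1 x.2⟩
    | Dat.Ext.rm x, Dat.Ext.rm y => Dat.Ext.rm ⟨x.1 * y.1, D.mul x.1 x.2 y.1 y.2⟩
  mul_assoc a b c := by
    rcases a with a | a <;> rcases b with b | b <;> rcases c with c | c
    · exact congrArg Dat.Ext.pt (mul_assoc a b c)
    · exact congrArg Dat.Ext.rm (Subtype.ext (by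
        change D.f (a * b) * c.1 = D.f a * (D.f b * c.1)
        rw [map_mul, mul_assoc]))
    · exact congrArg Dat.Ext.rm (Subtype.ext (mul_assoc _ _ _))
    · exact congrArg Dat.Ext.rm (Subtype.ext (mul_assoc _ _ _))
    · exact congrArg Dat.Ext.rm (Subtype.ext (by
        change a.1 * D.f b * D.f c = a.1 * D.f (b * c)
        rw [map_mul, mul_assoc]))
    · exact congrArg Dat.Ext.rm (Subtype.ext (mul_assoc _ _ _))
    · exact congrArg Dat.Ext.rm (Subtype.ext (mul_assoc _ _ _))
    · exact congrArg Dat.Ext.rm (Subtype.ext (mul_assoc _ _ _))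

theorem Dat.pr_mul {X Y : Type u} [Semigroup X] [Semigroup Y] (D : Dat X Y) (a b : D.Ext) : D.pr (a * b) = D.pr a * D.pr b := by
  rcases a with a | a <;> rcases b with b | b
  · exact map_mul D.f a b
  · rfl
  · rfl
  · rfl

variable {X Y : Type u} [Semigroup X] [Semigroup Y] [TopologicalSpace Y]

instance (D : Dat X Y) : TopologicalSpace D.Ext where
  IsOpen U := ∀ e : D.E, (Dat.Ext.rm e : D.Ext) ∈ U →
    ∃ V : Set Y, IsOpen V ∧ e.1 ∈ V ∧ D.pr ⁻¹' V ⊆ U
  isOpen_univ := fun e _ => ⟨Set.univ, isOpen_univ, trivial, fun _ _ => trivial⟩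
  isOpen_inter := by
    intro U U' hU hU' e he
    obtain ⟨V, hV, heV, hVU⟩ := hU e he.1
    obtain ⟨V', hV', heV', hVU'⟩ := hU' e he.2
    exact ⟨V ∩ V', hV.inter hV', ⟨heV, heV'⟩, fun w hw => ⟨hVU hw.1, hVU' hw.2⟩⟩
  isOpen_sUnion := by
    rintro S hS e ⟨U, hU, he⟩
    obtain ⟨V, hV, heV, hVU⟩ := hS U hU e he
    exact ⟨V, hV, heV, fun w hw => ⟨U, hU, hVU hw⟩⟩

theorem Dat.isOpen_def (D : Dat X Y) (U : Set D.Ext) : IsOpen U ↔
    ∀ e : D.E, (Dat.Ext.rm e : D.Ext) ∈ U → ∃ V : Set Y, IsOpen V ∧ e.1 ∈ V ∧ D.pr ⁻¹' V ⊆ U :=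
  Iff.rfl

theorem Dat.isOpen_inl (D : Dat X Y) (x : X) : IsOpen ({Dat.Ext.pt x} : Set D.Ext) := by
  rw [D.isOpen_def]
  intro e he
  have : (Dat.Ext.rm e : D.Ext) = Dat.Ext.pt x := he
  cases this

theorem Dat.continuous_pr (D : Dat X Y) : Continuous D.pr := by
  rw [continuous_def]
  intro V hV
  rw [D.isOpen_def]
  intro e he
  exact ⟨V, hV, he, subset_rfl⟩

theorem Dat.nhds_inr (D : Dat X Y) (e : D.E) :
    𝓝 (Dat.Ext.rm e : D.Ext) = comap D.pr (𝓝 e.1) := by
  apply le_antisymm
  · exact (D.continuous_pr.tendsto (Dat.Ext.rm e)).le_comap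
  · intro U hU
    obtain ⟨U', hU', hUo, heU⟩ := mem_nhds_iff.mp hU
    obtain ⟨V, hV, heV, hVU⟩ := (D.isOpen_def U').mp hUo e heU
    exact mem_comap.mpr ⟨V, hV.mem_nhds heV, hVU.trans hU'⟩

theorem Dat.nhds_inl (D : Dat X Y) (x : X) : 𝓝 (Dat.Ext.pt x : D.Ext) = pure (Dat.Ext.pt x) :=
  (isOpen_singleton_iff_nhds_eq_pure _).mp (D.isOpen_inl x)

theorem Dat.continuousMul (D : Dat X Y) [ContinuousMul Y] : ContinuousMul D.Ext := by
  constructor
  rw [continuous_iff_continuousAt]
  rintro ⟨a, b⟩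
  have hcont : Continuous fun p : D.Ext × D.Ext => D.pr (p.1 * p.2) := by
    simp only [D.pr_mul]
    exact (D.continuous_pr.comp continuous_fst).mul (D.continuous_pr.comp continuous_snd)
  by_cases hab : ∃ e : D.E, a * b = (Dat.Ext.rm e : D.Ext)
  · obtain ⟨e, he⟩ := hab
    have h1 := hcont.tendsto (a, b)
    change Tendsto _ _ (𝓝 (a * b))
    rw [he, D.nhds_inr, tendsto_comap_iff]
    have h2 : D.pr (a * b) = e.1 := by rw [he]; rfl
    change Tendsto _ _ (𝓝 (D.pr (a * b))) at h1
    rw [h2] at h1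
    exact h1
  · rcases a with a | a
    · rcases b with b | b
      · change Tendsto _ (𝓝 ((Dat.Ext.pt a : D.Ext), (Dat.Ext.pt b : D.Ext))) _
        rw [nhds_prod_eq, D.nhds_inl, D.nhds_inl, prod_pure_pure]
        exact (tendsto_pure_nhds _ _)
      · exact absurd ⟨_, rfl⟩ hab
    · rcases b with b | b
      · exact absurd ⟨_, rfl⟩ hab
      · exact absurd ⟨_, rfl⟩ hab

/-- points with the same projection are equal or both isolated -/
theorem Dat.sep (D : Dat X Y) (hd : ∀ x, D.f x ∉ D.E) {a b : D.Ext} (hab : a ≠ b)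
    (hpr : D.pr a = D.pr b) : IsOpen ({a} : Set D.Ext) ∧ IsOpen ({b} : Set D.Ext) := by
  rcases a with a | a
  · rcases b with b | b
    · exact ⟨D.isOpen_inl a, D.isOpen_inl b⟩
    · exact absurd (by have : D.f a = b.1 := hpr; rw [this]; exact b.2) (hd a)
  · rcases b with b | b
    · exact absurd (by have : a.1 = D.f b := hpr; rw [← this]; exact a.2) (hd b)
    · exact absurd (congrArg Dat.Ext.rm (Subtype.ext hpr)) hab

theorem Dat.t1 (D : Dat X Y) (hd : ∀ x, D.f x ∉ D.E) [T1Space Y] : T1Space D.Ext := by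
  rw [t1Space_iff_exists_open]
  intro a b hab
  by_cases hpr : D.pr a = D.pr b
  · exact ⟨{a}, (D.sep hd hab hpr).1, rfl, fun h => hab h.symm⟩
  · obtain ⟨U, hU, haU, hbU⟩ := (t1Space_iff_exists_open.mp ‹T1Space Y›) hpr
    exact ⟨D.pr ⁻¹' U, hU.preimage D.continuous_pr, haU, hbU⟩

theorem Dat.t2 (D : Dat X Y) (hd : ∀ x, D.f x ∉ D.E) [T2Space Y] : T2Space D.Ext := by
  constructor
  intro a b hab
  by_cases hpr : D.pr a = D.pr b
  · exact ⟨{a}, {b}, (D.sep hd hab hpr).1, (D.sep hd hab hpr).2, rfl, rfl,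
      Set.disjoint_singleton.mpr hab⟩
  · obtain ⟨U, V, hU, hV, haU, hbV, hUV⟩ := t2_separation hpr
    exact ⟨D.pr ⁻¹' U, D.pr ⁻¹' V, hU.preimage D.continuous_pr, hV.preimage D.continuous_pr,
      haU, hbV, hUV.preimage _⟩

theorem Dat.basis (D : Dat X Y) (hd : ∀ x, D.f x ∉ D.E) [T1Space Y]
    (hY : TopologicalSpace.IsTopologicalBasis {s : Set Y | IsClopen s}) :
    TopologicalSpace.IsTopologicalBasis {s : Set D.Ext | IsClopen s} := by
  have := D.t1 hd
  apply TopologicalSpace.isTopologicalBasis_of_isOpen_of_nhds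
  · intro s hs
    exact hs.2
  · intro a U haU hU
    rcases a with a | a
    · exact ⟨{Dat.Ext.pt a}, ⟨isClosed_singleton, D.isOpen_inl a⟩, rfl,
        Set.singleton_subset_iff.mpr haU⟩
    · obtain ⟨V, hV, haV, hVU⟩ := (D.isOpen_def U).mp hU a haU
      obtain ⟨W, hW, haW, hWV⟩ := hY.exists_subset_of_mem_open haV hV
      exact ⟨D.pr ⁻¹' W, hW.preimage D.continuous_pr, haW,
        (Set.preimage_mono hWV).trans hVU⟩

/-- The remainder of a discrete dense cancellative semigroup is an ideal. -/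
theorem exists_dat [ContinuousMul Y] [T1Space Y] {Q : Type u} [Semigroup Q]
    (hl : ∀ a b c : Q, a * b = a * c → b = c) (hr : ∀ a b c : Q, b * a = c * a → b = c)
    (π : X →ₙ* Q) (h : Q →ₙ* Y) (he : @IsEmbedding Q Y ⊥ _ h) :
    ∃ D : Dat X Y, D.f = h.comp π ∧ D.E = closure (Set.range h) \ Set.range h := by
  refine ⟨⟨h.comp π, closure (Set.range h) \ Set.range h, ?_, ?_, ?_⟩, rfl, rfl⟩
  · intro x y hy
    refine ⟨map_mem_closure (f := fun t => h (π x) * t) (continuous_const_mul (h (π x))) hy.1 ?_,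
      ?_⟩
    · rintro _ ⟨q, rfl⟩
      exact ⟨π x * q, map_mul h _ _⟩
    · rintro ⟨z, hz⟩
      apply hy.2
      obtain ⟨W, hW, hWz⟩ := exists_isolating he z
      have h1 : (fun t => h (π x) * t) y ∈ W := by
        have : z ∈ h ⁻¹' W := by rw [hWz]; rfl
        change h (π x) * y ∈ W
        have h2 : h z = h (π x) * y := hz
        rw [← h2]
        exact this
      refine mem_range_of_finite hy.1 (hW.preimage (continuous_const_mul (h (π x)))) h1 ?_
      apply Set.Subsingleton.finite
      intro q hq q' hq'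
      have e1 : π x * q ∈ h ⁻¹' W := by
        change h (π x * q) ∈ W
        rw [map_mul]; exact hq
      have e2 : π x * q' ∈ h ⁻¹' W := by
        change h (π x * q') ∈ W
        rw [map_mul]; exact hq'
      rw [hWz] at e1 e2
      exact hl (π x) q q' (e1.trans e2.symm)
  · intro x y hy
    refine ⟨map_mem_closure (f := fun t => t * h (π x)) (continuous_mul_const (h (π x))) hy.1 ?_,
      ?_⟩
    · rintro _ ⟨q, rfl⟩
      exact ⟨q * π x, map_mul h _ _⟩
    · rintro ⟨z, hz⟩
      apply hy.2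
      obtain ⟨W, hW, hWz⟩ := exists_isolating he z
      have h1 : (fun t => t * h (π x)) y ∈ W := by
        have : z ∈ h ⁻¹' W := by rw [hWz]; rfl
        change y * h (π x) ∈ W
        have h2 : h z = y * h (π x) := hz
        rw [← h2]
        exact this
      refine mem_range_of_finite hy.1 (hW.preimage (continuous_mul_const (h (π x)))) h1 ?_
      apply Set.Subsingleton.finite
      intro q hq q' hq'
      have e1 : q * π x ∈ h ⁻¹' W := by
        change h (q * π x) ∈ W
        rw [map_mul]; exact hq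
      have e2 : q' * π x ∈ h ⁻¹' W := by
        change h (q' * π x) ∈ W
        rw [map_mul]; exact hq'
      rw [hWz] at e1 e2
      exact hr (π x) q q' (e1.trans e2.symm)
  · intro y hy y' hy'
    refine ⟨map_mem_closure₂ continuous_mul hy.1 hy'.1 ?_, ?_⟩
    · rintro _ ⟨q, rfl⟩ _ ⟨q', rfl⟩
      exact ⟨q * q', map_mul h _ _⟩
    · rintro ⟨z, hz⟩
      apply hy.2
      obtain ⟨W, hW, hWz⟩ := exists_isolating he z
      have h1 : y * y' ∈ W := by
        have : z ∈ h ⁻¹' W := by rw [hWz]; rfl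
        rw [← hz]
        exact this
      have h3 := (continuous_mul (M := Y)).continuousAt.preimage_mem_nhds
        (x := (y, y')) (hW.mem_nhds h1)
      rw [nhds_prod_eq, Filter.mem_prod_iff] at h3
      obtain ⟨V1, hV1, V2, hV2, hsub⟩ := h3
      obtain ⟨V, hV, hVo, hyV⟩ := mem_nhds_iff.mp hV1
      obtain ⟨_, hq0, ⟨q₀, rfl⟩⟩ := mem_closure_iff_nhds.mp hy'.1 V2 hV2
      refine mem_range_of_finite hy.1 hVo hyV ?_
      apply Set.Subsingleton.finite
      intro q hq q' hq'
      have e1 : q * q₀ ∈ h ⁻¹' W := by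
        change h (q * q₀) ∈ W
        rw [map_mul]; exact hsub (show (h q, h q₀) ∈ V1 ×ˢ V2 from ⟨hV hq, hq0⟩)
      have e2 : q' * q₀ ∈ h ⁻¹' W := by
        change h (q' * q₀) ∈ W
        rw [map_mul]; exact hsub (show (h q', h q₀) ∈ V1 ×ˢ V2 from ⟨hV hq', hq0⟩)
      rw [hWz] at e1 e2
      exact hr q₀ q q' (e1.trans e2.symm)

theorem quotient_closed (C : TopClass.{u}) {X Q : Type u} [Semigroup X] [Semigroup Q]
    (hl : ∀ a b c : Q, a * b = a * c → b = c) (hr : ∀ a b c : Q, b * a = c * a → b = c)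
    (π : X →ₙ* Q) (hπ : Function.Surjective π)
    (hC : ∀ (Y : Type u) [TopologicalSpace Y] [Semigroup Y], C Y → T1S Y)
    (hExt : ∀ (Y : Type u) [TopologicalSpace Y] [Semigroup Y] (D : Dat X Y),
      (∀ x, D.f x ∉ D.E) → C Y → C D.Ext)
    (hX : CClosed C X) : CClosed C Q := by
  intro Y _ _ hY h he
  obtain ⟨_, _⟩ := hC Y hY
  obtain ⟨D, hDf, hDE⟩ := exists_dat hl hr π h he
  have hd : ∀ x, D.f x ∉ D.E := by
    intro x hx
    rw [hDE, hDf] at hx
    exact hx.2 ⟨π x, rfl⟩
  let i : X →ₙ* D.Ext := ⟨fun x => (Dat.Ext.pt x : D.Ext), fun _ _ => rfl⟩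
  have h1 : @IsEmbedding X D.Ext ⊥ _ i := by
    apply isEmbedding_bot
    · intro a b hab
      exact Dat.Ext.pt.inj hab
    · intro x
      refine ⟨{Dat.Ext.pt x}, D.isOpen_inl x, ?_⟩
      ext z
      constructor
      · intro hz
        exact Dat.Ext.pt.inj hz
      · rintro rfl
        rfl
  have h2 := hX D.Ext (hExt Y D hd hY) i h1
  rw [← closure_subset_iff_isClosed]
  intro y hy
  by_contra hyr
  have hyE : y ∈ D.E := by rw [hDE]; exact ⟨hy, hyr⟩
  have h3 : (Dat.Ext.rm ⟨y, hyE⟩ : D.Ext) ∈ (Set.range i)ᶜ := by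
    rintro ⟨x, hx⟩
    have : (Dat.Ext.pt x : D.Ext) = Dat.Ext.rm ⟨y, hyE⟩ := hx
    cases this
  obtain ⟨V, hV, hyV, hsub⟩ := (D.isOpen_def _).mp h2.isOpen_compl ⟨y, hyE⟩ h3
  obtain ⟨_, hqV, ⟨q, rfl⟩⟩ := mem_closure_iff.mp hy V hV hyV
  obtain ⟨x, rfl⟩ := hπ q
  have h4 : (Dat.Ext.pt x : D.Ext) ∈ D.pr ⁻¹' V := by
    change D.f x ∈ V
    rw [hDf]
    exact hqV
  exact hsub h4 ⟨x, rfl⟩

theorem group_projectively {C : TopClass.{u}} {G : Type u} [Group G]
    (hC : ∀ (Y : Type u) [TopologicalSpace Y] [Semigroup Y], C Y → T1S Y)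
    (hExt : ∀ (X Y : Type u) [Semigroup X] [TopologicalSpace Y] [Semigroup Y] (D : Dat X Y),
      (∀ x, D.f x ∉ D.E) → C Y → C D.Ext)
    (hG : CClosed C G) : ProjectivelyClosed C G := by
  intro c
  have hinv : ∀ g : G, ∀ q : c.Quotient, ((g⁻¹ : G) : c.Quotient) * ((g : c.Quotient) * q) = q := by
    intro g q
    induction q using Quotient.inductionOn with | _ x => ?_
    change ((g⁻¹ * (g * x) : G) : c.Quotient) = (x : c.Quotient)
    rw [inv_mul_cancel_left]
  have hinv' : ∀ g : G, ∀ q : c.Quotient, (q * (g : c.Quotient)) * ((g⁻¹ : G) : c.Quotient) = q := by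
    intro g q
    induction q using Quotient.inductionOn with | _ x => ?_
    change ((x * g * g⁻¹ : G) : c.Quotient) = (x : c.Quotient)
    rw [mul_inv_cancel_right]
  refine quotient_closed C (X := G) (Q := c.Quotient) ?_ ?_
    ⟨fun x => (x : c.Quotient), fun _ _ => rfl⟩ Quotient.mk_surjective hC (fun Y _ _ D => hExt G Y D) hG
  · intro a b d hab
    induction a using Quotient.inductionOn with | _ a => ?_
    have h1 := hinv a b
    have h2 := hinv a d
    rw [← h1, ← h2]
    exact congrArg _ hab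
  · intro a b d hab
    induction a using Quotient.inductionOn with | _ a => ?_
    have h1 := hinv' a b
    have h2 := hinv' a d
    rw [← h1, ← h2]
    exact congrArg (fun t => t * ((a⁻¹ : G) : c.Quotient)) hab

end group

/-- **Q1 of MP_4caafd_al.** The answer is no: there is a semigroup that for every class `C` with
`TzS ⊆ C ⊆ T1S` is ideally `C`-closed and is not projectively `C`-closed. For groups and the three
classes `T1S`, `T2S`, `TzS` the answer is yes: each `C`-closed group is projectively `C`-closed. -/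
theorem result :
    (∃ (X : Type u) (_ : Semigroup X), ∀ C : TopClass.{u},
      (∀ (Y : Type u) [TopologicalSpace Y] [Semigroup Y], TzS Y → C Y) →
      (∀ (Y : Type u) [TopologicalSpace Y] [Semigroup Y], C Y → T1S Y) →
      IdeallyClosed C X ∧ ¬ ProjectivelyClosed C X) ∧
    (∀ (G : Type u) [Group G], (CClosed T1S G → ProjectivelyClosed T1S G) ∧
      (CClosed T2S G → ProjectivelyClosed T2S G) ∧
      (CClosed TzS G → ProjectivelyClosed TzS G)) := by
  refine ⟨⟨RS.{u}, inferInstance, fun C h1 h2 => ⟨RS_ideally h2, RS_not_projectively h1⟩⟩, ?_⟩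
  intro G _
  refine ⟨group_projectively (fun _ _ _ h => h) ?_, group_projectively ?_ ?_,
    group_projectively ?_ ?_⟩
  · intro X Y _ _ _ D hd ⟨_, _⟩
    exact ⟨D.continuousMul, D.t1 hd⟩
  · intro Y _ _ ⟨h1, _⟩
    exact ⟨h1, inferInstance⟩
  · intro X Y _ _ _ D hd ⟨_, _⟩
    exact ⟨D.continuousMul, D.t2 hd⟩
  · intro Y _ _ ⟨h1, _, _⟩
    exact ⟨h1, inferInstance⟩
  · intro X Y _ _ _ D hd ⟨_, _, hb⟩
    exact ⟨D.continuousMul, D.t2 hd, D.basis hd hb⟩

end Pool.Agent.Results.MP_4caafd_al.IdealNotProjective
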